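import Pool.Agent.V5helper19.QC.All

/-!
# The coefficients of the `q`-Catalan numbers are log-concave away from the two ends

`C n` is the `q`-Catalan number `C_n(q) = [2n]! / ([n+1] [n]! [n]!)`, given as the (unique)
polynomial with `[n+1] [n]! [n]! C_n = [2n]!`. There is `t` such that for all sufficiently large `n`
its coefficients `m_n(t), m_n(t+1), ..., m_n(n(n-1)-t)` form a log-concave sequence.
-/

set_option autoImplicit false

namespace Pool.Agent.Results.MP_532027_co.EventualLogConcavity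

open Polynomial

/-- `[m] = 1 + q + ... + q ^ (m - 1)`. -/
noncomputable def qint (m : ℕ) : ℤ[X] := ∑ i ∈ Finset.range m, X ^ i

/-- `[m]! = [1] [2] ... [m]`. -/
noncomputable def qfact (m : ℕ) : ℤ[X] := ∏ i ∈ Finset.range m, qint (i + 1)

theorem result : ∃ C : ℕ → ℤ[X],
    (∀ n : ℕ, qint (n + 1) * (qfact n * qfact n) * C n = qfact (2 * n)) ∧
    ∃ t N : ℕ, ∀ n : ℕ, N ≤ n → ∀ k : ℕ, t + 1 ≤ k → k + (t + 1) ≤ n * (n - 1) →
      (C n).coeff (k - 1) * (C n).coeff (k + 1) ≤ (C n).coeff k ^ 2 := by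
  obtain ⟨t, N, h⟩ := V5helper19.QC.all_good
  refine ⟨LeastTNot75.qCat, LeastTNot75.qCat_mul, t.toNat, N, fun n hn k hk1 hk2 => ?_⟩
  have h1 := h n hn (k : ℤ) (by omega) (by
    have e : ((n * (n - 1) : ℕ) : ℤ) = (n : ℤ) * ((n : ℤ) - 1) := by
      rcases Nat.eq_zero_or_pos n with h0 | h0
      · subst h0; simp
      · push_cast [Nat.cast_sub h0]; ring
    have e2 : ((k + (t.toNat + 1) : ℕ) : ℤ) ≤ ((n * (n - 1) : ℕ) : ℤ) := by exact_mod_cast hk2
    rw [e] at e2
    push_cast at e2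
    have := Int.self_le_toNat t
    linarith)
  have hk : 1 ≤ k := by omega
  have e1 : (k : ℤ) - 1 = ((k - 1 : ℕ) : ℤ) := by omega
  have e2 : (k : ℤ) + 1 = ((k + 1 : ℕ) : ℤ) := by push_cast; ring
  rw [e1, e2] at h1
  have hm : ∀ j : ℕ, LeastTNot75.m n (j : ℤ) = (LeastTNot75.qCat n).coeff j := by
    intro j
    rw [LeastTNot75.m, if_pos (Int.natCast_nonneg j), Int.toNat_natCast]
  rw [hm, hm, hm] at h1
  exact h1

end Pool.Agent.Results.MP_532027_co.EventualLogConcavity
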